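import Mathlib
import Pool.Agent.W518.TC.Defs

/-!
# The Newton strata

The definitions of `IsNewton`, `HasSlopes` and `Stratum` of `Pool.Agent.W518.DN`, repeated here so
that they can be read without the files that prove the theorems on them.
-/

set_option autoImplicit false

namespace Pool.Agent.Q64.N

open Polynomial Pool.Agent.W518.TC

/-- The slopes `s 0 ≤ s 1 ≤ ... ≤ s (g - 1) ≤ 1 / 2` and `1 - s i` are the slopes of a symmetric
Newton polygon with integral break points: for every `x < 1 / 2`, the multiplicity of the slope `x`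
times `x` is an integer. -/
structure IsNewton {g : ℕ} (s : Fin g → ℚ) : Prop where
  mono : Monotone s
  nonneg : ∀ i, 0 ≤ s i
  le_half : ∀ i, s i ≤ 1 / 2
  integral : ∀ x : ℚ, x < 1 / 2 →
    ∃ n : ℤ, ((Finset.univ.filter fun i => s i = x).card : ℚ) * x = n

/-- The polynomial `P` of degree `2 * g` has the slopes `s i` and `1 - s i`: the absolute values of
its roots in an algebraic closure of `ℚ_p` are `q ^ (-s i)` and `q ^ (-(1 - s i))`, where
`q = p ^ a`. -/
def HasSlopes (p : ℕ) [Fact p.Prime] (a : ℕ) {g : ℕ} (s : Fin g → ℚ) (P : ℤ[X]) : Prop :=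
  (P.map (Int.castRingHom (AlgebraicClosure ℚ_[p]))).roots.map
      (fun x => spectralNorm ℚ_[p] (AlgebraicClosure ℚ_[p]) x) =
    Finset.univ.val.map (fun i => (p : ℝ) ^ (-((a * s i : ℚ) : ℝ))) +
      Finset.univ.val.map (fun i => (p : ℝ) ^ (-((a * (1 - s i) : ℚ) : ℝ)))

/-- Families of the characteristic polynomials of Frobenius of abelian varieties of dimension `g i`
over the field with `p ^ a` elements whose Newton polygons have the slopes `s i j` and
`1 - s i j`. -/
def Stratum {κ : Type} (g : κ → ℕ) (s : ∀ i, Fin (g i) → ℚ) (p : ℕ) [Fact p.Prime] (a : ℕ) :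
    Set (κ → ℤ[X]) :=
  {P | ∀ i, IsFrobPoly p a (P i) ∧ (P i).natDegree = 2 * g i ∧ HasSlopes p a (s i) (P i)}

end Pool.Agent.Q64.N
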