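import Mathlib
import Pool.Agent.Q64.N.RankOver
import Pool.Agent.Q64.L.InstA
import Pool.Agent.Q64.P.Good
import Pool.Agent.Q64.P.Mono
import Pool.Agent.W518.DN.Density

/-!
# Families of Weil polynomials with flips are good
-/

set_option autoImplicit false

namespace Pool.Agent.Q64.N

open Polynomial Module Pool.Agent.Q64.L Pool.Agent.Y156.L Pool.Agent.W521.Frob
  Pool.Agent.W484.AA Pool.Agent.W484.BB Pool.Agent.W484.HS Pool.Agent.W521.Criterion

/-- A family of trace polynomials with flips at primes of `U`, without supersingular roots. -/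
structure FlipData (U : Set ℕ) (r : ℕ) {I : Type} (q : ℕ) (h : I → ℤ[X]) : Prop where
  monic : ∀ i, (h i).Monic
  irr : ∀ i, Irreducible ((h i).map (Int.castRingHom ℚ))
  pat : ∀ i, ∃ l : ℕ, l.Prime ∧ l ≠ 2 ∧ ¬ l ∣ q ∧ l ∈ U ∧ FlipPattern q h i l
  nss : ∀ i, ∀ z : ℂ, aeval z (weil q (h i)) = 0 → ∀ t : ℕ, 0 < t → (z ^ 2) ^ t ≠ (q : ℂ) ^ t
  deg : ∀ i, r < (h i).natDegree

theorem exactPair_family {I : Type} [Finite I] {E : IntermediateField ℚ ℂ}
    [FiniteDimensional ℚ E] {q : ℕ} (hq : q ≠ 0) {r : ℕ} {h : I → ℤ[X]}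
    (hF : FlipData (Pool.Agent.W484.TB.splitPrimes E) r q h)
    (s : ℕ) (hs : 0 < s) (χ : ℚ[X]) (hχ : χ ≠ 0)
    (hrank : Pool.Agent.W484.TB.RankLEOver E r {ρ : ℂ | aeval ρ χ = 0}) (ρ : ℂ)
    (hρ : aeval ρ χ = 0) :
    ExactPairK (fun z : {z : ℂ // ∃ i, aeval z (weil q (h i)) = 0} => (z : ℂ) ^ s)
      ((q : ℂ) ^ s) ρ := by
  obtain ⟨hm, hirr, hpat, hss, hdeg⟩ := hF
  have hρ0 : ρ ≠ 0 := by
    rintro rfl
    exact Pool.Agent.W484.TB.zero_not_rank_over hrank hρ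
  obtain ⟨u, hu0, hu⟩ := hrank
  intro n c N hN hn ys hlen hrel hpw
  let X := {z : ℂ // ∃ i, aeval z (weil q (h i)) = 0}
  refine no_relation_rank_over hq hm hirr (Pool.Agent.W484.TB.gal E)
    (algebraMap (Pool.Agent.W484.TB.gal E) ℂ) hpat hss r hdeg χ hχ u hu0 (fun ρ hρ => ?_)
    ρ hρ hρ0 s hs hn c N hN
    (fun l => ((ys.get (Fin.cast hlen.symm l) : X) : ℂ))
    (fun l => (ys.get (Fin.cast hlen.symm l)).2) ?_ ?_
  · obtain ⟨N, y, m, hN, hyE, hy0, h2⟩ := hu ρ hρ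
    refine ⟨N, ⟨y, Pool.Agent.W484.TB.le_gal E hyE⟩, m, hN, ?_, h2⟩
    intro h
    exact hy0 (congrArg Subtype.val h)
  · rw [← hrel]
    congr 2
    have h6 : ∏ l : Fin n, ((ys.get (Fin.cast hlen.symm l) : X) : ℂ) =
        (ys.map (fun y : X => (y : ℂ))).prod := by
      have h61 : ∏ l : Fin n, ((ys.get (Fin.cast hlen.symm l) : X) : ℂ) =
          ∏ l : Fin ys.length, ((ys.get l : X) : ℂ) :=
        Fintype.prod_equiv (finCongr hlen.symm) _ _ fun l => rfl
      rw [h61, ← List.prod_ofFn]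
      congr 1
      apply List.ext_getElem
      · simp
      · intro i h1 h2
        simp
    rw [h6]
    have h7 : ∀ ys : List X, (ys.map (fun y : X => (y : ℂ))).prod ^ s =
        (ys.map (fun y : X => (y : ℂ) ^ s)).prod := by
      intro ys
      induction ys with
      | nil => simp
      | cons y ys ih =>
        rw [List.map_cons, List.prod_cons, mul_pow, ih, List.map_cons, List.prod_cons]
    exact h7 ys
  · have hbad : ∀ k' l' : Fin ys.length, k' < l' →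
        ((ys.get k' : X) : ℂ) * ((ys.get l' : X) : ℂ) ≠ q := by
      intro k' l' hkl h8
      refine (List.pairwise_iff_get.1 hpw) k' l' hkl ?_
      change ((ys.get k' : X) : ℂ) ^ s * ((ys.get l' : X) : ℂ) ^ s = _
      rw [← mul_pow, h8]
    intro k' l' hkl
    rcases lt_or_gt_of_ne hkl with h | h
    · exact hbad _ _ h
    · intro h8
      rw [mul_comm] at h8
      exact hbad _ _ h h8

theorem good_family {I : Type} [Finite I] {E : IntermediateField ℚ ℂ}
    [FiniteDimensional ℚ E] {q : ℕ} (hq : 1 < q) {r : ℕ} {h : I → ℤ[X]}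
    (hF : FlipData (Pool.Agent.W484.TB.splitPrimes E) r q h) :
    Good (RootsRank E r) q (fun i => weil q (h i)) where
  monic := fun i => weil_monic q (hF.monic i)
  one := Pool.Agent.W484.CH.rank_one E r
  coeff := fun χ h => Pool.Agent.Y156.L.coeff_zero_ne h
  pair := fun K _ _ s hs χ hχ hrank ρ hρ =>
    Pool.Agent.Y1.CT.exactPair_field _ (fun i => weil_monic q (hF.monic i)) q s χ hχ
      (fun ρ hρ => exactPair_family (by omega) hF s hs χ hχ hrank ρ hρ) ρ hρ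

/-- The roots of nonzero polynomials with the property `P`. -/
def RootOf (P : ℚ[X] → Prop) (ρ : ℂ) : Prop := ∃ χ : ℚ[X], χ ≠ 0 ∧ P χ ∧ aeval ρ χ = 0

theorem noRel_of_good {P : ℚ[X] → Prop} {q : ℕ} {I : Type} {F : I → ℤ[X]} (hG : Good P q F) :
    Pool.Agent.Y1.CT.NoRel F q (RootOf P) where
  monic := hG.monic
  one := ⟨X - 1, by rw [← C_1]; exact X_sub_C_ne_zero 1, hG.one, by simp⟩
  pair := by
    rintro s hs ρ ⟨χ, h0, hP, hρ⟩
    exact hG.pair ℂ s hs χ h0 hP ρ hρ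

theorem rootsIn_of_good {P : ℚ[X] → Prop} {q : ℕ} {I : Type} {F : I → ℤ[X]} (hG : Good P q F)
    (χ : ℚ[X]) (h : P χ) : Pool.Agent.Q64.P.RootsIn (RootOf P) χ := by
  intro ρ hρ
  refine ⟨χ, ?_, h, hρ⟩
  rintro rfl
  exact hG.coeff 0 h (coeff_zero 0)

end Pool.Agent.Q64.N
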