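import Mathlib
import Pool.Agent.Q64.N.Family

/-!
# Patterns of the trace polynomials give flips; slopes exclude supersingular roots
-/

set_option autoImplicit false

namespace Pool.Agent.Q64.N

open Polynomial Module Pool.Agent.W521.Frob Pool.Agent.W518.DN Pool.Agent.W521.Criterion

theorem flipPattern_of {κ : Type} {q : ℕ} {g : κ → ℕ} {h : κ → ℤ[X]} {l : ℕ} [Fact l.Prime]
    (hl2 : l ≠ 2) (hql : ((q : ℕ) : ZMod l) ≠ 0) (y : ∀ i, Fin (g i) → ZMod l)
    (hy : ∀ i, Function.Injective (y i))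
    (hh : ∀ i, (h i).map (Int.castRingHom (ZMod l)) = ∏ t, (X - C (y i t))) (i0 : κ)
    (t0 : Fin (g i0)) (hB : y i0 t0 ∈ goodB l ((q : ℕ) : ZMod l))
    (hA : ∀ i t, (⟨i, t⟩ : Σ i, Fin (g i)) ≠ ⟨i0, t0⟩ → y i t ∈ goodA l ((q : ℕ) : ZMod l)) :
    FlipPattern q h i0 l := by
  classical
  have h2 : (2 : ZMod l) ≠ 0 := by
    intro h0
    have h1 : ((2 : ℕ) : ZMod l) = 0 := by exact_mod_cast h0
    rw [ZMod.natCast_eq_zero_iff] at h1
    have hlp : l.Prime := Fact.out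
    rcases (Nat.dvd_prime Nat.prime_two).1 h1 with h3 | h3
    · exact hlp.one_lt.ne' h3
    · exact hl2 h3
  refine ⟨fun i => Finset.univ.image (y i), y i0 t0,
    Finset.mem_image_of_mem _ (Finset.mem_univ _), ?_, ?_, ?_⟩
  · rintro ⟨w, hw⟩
    rw [goodB, Finset.mem_sdiff] at hB
    apply hB.2
    set u : ZMod l := (y i0 t0 + w) / 2 with hu
    have h3 : u ^ 2 + (q : ZMod l) = y i0 t0 * u := by
      rw [hu]
      field_simp
      linear_combination -hw
    have hu0 : u ≠ 0 := by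
      intro h0
      rw [h0, mul_zero, zero_pow two_ne_zero, zero_add] at h3
      exact hql h3
    refine Finset.mem_image.2 ⟨u, Finset.mem_filter.2 ⟨Finset.mem_univ _, hu0⟩, ?_⟩
    field_simp
    rw [h3, mul_comm]
  · intro i
    rw [hh i]
    beta_reduce
    rw [Finset.prod_image fun a _ b _ hab => hy i hab]
  · intro i t ht hne
    obtain ⟨k, -, rfl⟩ := Finset.mem_image.1 ht
    have h3 := hA i k (by
      intro h0
      apply hne
      obtain ⟨rfl, h4⟩ := Sigma.mk.inj_iff.1 h0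
      exact ⟨rfl, by rw [eq_of_heq h4]⟩)
    rw [goodA] at h3
    obtain ⟨u, hu, hut⟩ := Finset.mem_image.1 h3
    obtain ⟨-, hu0, huq⟩ := Finset.mem_filter.1 hu
    have h5 : y i k ^ 2 - 4 * (q : ZMod l) = (u - q / u) * (u - q / u) := by
      rw [← hut]
      field_simp
      ring
    refine ⟨⟨_, h5⟩, ?_⟩
    rw [h5]
    have h6 : u - q / u ≠ 0 := by
      intro h0
      apply huq
      rw [sub_eq_zero, eq_div_iff hu0] at h0
      rw [sq]
      exact h0
    exact mul_ne_zero h6 h6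

theorem irr_of_mod {h : ℤ[X]} (hm : h.Monic) {l : ℕ} [Fact l.Prime]
    (hi : Irreducible (h.map (Int.castRingHom (ZMod l)))) :
    Irreducible (h.map (Int.castRingHom ℚ)) :=
  (IsPrimitive.Int.irreducible_iff_irreducible_map_cast hm.isPrimitive).1
    (hm.irreducible_of_irreducible_map _ _ hi)

theorem lift_eq_weil {q g : ℕ} {h : ℤ[X]} (hd : h.natDegree = g) :
    Pool.Agent.W518.DN.lift (q : ℤ) g h = weil q h := by
  subst hd
  rw [Pool.Agent.W518.DN.lift, weil]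
  exact Finset.sum_congr rfl fun k _ => by ring

/-- A Weil polynomial with a slope less than one half has no supersingular root. -/
theorem nss_of_slopes {p a : ℕ} [hp : Fact p.Prime] (ha : 0 < a) {h : ℤ[X]} (hm : h.Monic)
    (hirr : Irreducible (h.map (Int.castRingHom ℚ))) {g : ℕ} {s : Fin g → ℚ}
    (hs : HasSlopes p a s (weil (p ^ a) h)) (hlt : ∃ j, s j < 1 / 2) (z : ℂ)
    (hz : aeval z (weil (p ^ a) h) = 0) (t : ℕ) (ht : 0 < t) :
    (z ^ 2) ^ t ≠ ((p ^ a : ℕ) : ℂ) ^ t := by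
  intro hzt
  have hp2 := hp.out.two_le
  have hq : p ^ a ≠ 0 := pow_ne_zero _ hp.out.ne_zero
  obtain ⟨j0, hj0⟩ := hlt
  -- a root with a small slope
  obtain ⟨x, hx, hxn⟩ : ∃ x : AlgebraicClosure ℚ_[p],
      aeval x (weil (p ^ a) h) = 0 ∧ nv p x = (p : ℝ) ^ (-((a * s j0 : ℚ) : ℝ)) := by
    have h1 : (p : ℝ) ^ (-((a * s j0 : ℚ) : ℝ)) ∈
        ((weil (p ^ a) h).map (Int.castRingHom (AlgebraicClosure ℚ_[p]))).roots.map
          (fun x => spectralNorm ℚ_[p] (AlgebraicClosure ℚ_[p]) x) := by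
      rw [HasSlopes] at hs
      rw [hs]
      exact Multiset.mem_add.2 (Or.inl (Multiset.mem_map_of_mem _ (Finset.mem_univ j0)))
    obtain ⟨x, hx, hxn⟩ := Multiset.mem_map.1 h1
    refine ⟨x, ?_, hxn⟩
    have h2 := (mem_roots'.1 hx).2
    rw [IsRoot.def, eval_map] at h2
    exact h2
  have hxm : x ∈ algebraicClosure ℚ (AlgebraicClosure ℚ_[p]) := by
    rw [mem_algebraicClosure_iff]
    refine ⟨(weil (p ^ a) h).map (algebraMap ℤ ℚ), ((weil_monic _ hm).map _).ne_zero, ?_⟩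
    rw [aeval_map_algebraMap]
    exact hx
  have halg : Algebra.IsAlgebraic ℚ (algebraicClosure ℚ (AlgebraicClosure ℚ_[p])) :=
    algebraicClosure.isAlgebraic ℚ (AlgebraicClosure ℚ_[p])
  let j : algebraicClosure ℚ (AlgebraicClosure ℚ_[p]) →ₐ[ℚ] ℂ := IsAlgClosed.lift
  set w : ℂ := j ⟨x, hxm⟩ with hw
  have hw0 : aeval w (weil (p ^ a) h) = 0 := by
    have h2 := Polynomial.hom_eval₂ (weil (p ^ a) h) (algebraMap ℤ _)
      (j : algebraicClosure ℚ (AlgebraicClosure ℚ_[p]) →+* ℂ) ⟨x, hxm⟩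
    rw [RingHom.ext_int ((j : algebraicClosure ℚ (AlgebraicClosure ℚ_[p]) →+* ℂ).comp (algebraMap ℤ _))
      (algebraMap ℤ ℂ)] at h2
    have h3 : eval₂ (algebraMap ℤ (algebraicClosure ℚ (AlgebraicClosure ℚ_[p]))) (⟨x, hxm⟩ : algebraicClosure ℚ (AlgebraicClosure ℚ_[p]))
        (weil (p ^ a) h) = 0 := by
      apply (algebraMap (algebraicClosure ℚ (AlgebraicClosure ℚ_[p])) (AlgebraicClosure ℚ_[p])).injective
      rw [map_zero, Polynomial.hom_eval₂, RingHom.ext_int ((algebraMap (algebraicClosure ℚ (AlgebraicClosure ℚ_[p]))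
        (AlgebraicClosure ℚ_[p])).comp (algebraMap ℤ _)) (algebraMap ℤ (AlgebraicClosure ℚ_[p]))]
      exact hx
    rw [h3, map_zero] at h2
    exact h2.symm
  -- the Galois closure
  obtain ⟨L, _, _, _, jL, hL⟩ := exists_field (p ^ a) (fun _ : Unit => h) fun _ => hm
  obtain ⟨α, hα⟩ := hL () z hz
  obtain ⟨β, hβ⟩ := hL () w hw0
  have hdown : ∀ y : L, aeval (jL y) (weil (p ^ a) h) = 0 → aeval y (weil (p ^ a) h) = 0 := by
    intro y hy
    apply jL.injective
    have h2 := Polynomial.hom_eval₂ (weil (p ^ a) h) (algebraMap ℤ L) jL y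
    rw [RingHom.ext_int (jL.comp (algebraMap ℤ L)) (algebraMap ℤ ℂ)] at h2
    rw [map_zero]
    exact h2.trans hy
  have hα0 := hdown α (by rw [hα]; exact hz)
  have hβ0 := hdown β (by rw [hβ]; exact hw0)
  obtain ⟨τ, hτ⟩ := exists_tau (h := fun _ : Unit => h) hq (fun _ => hm) L jL hL () hirr α β hα0 hβ0
  have hαt : (α ^ 2) ^ t = ((p ^ a : ℕ) : L) ^ t := by
    apply jL.injective
    rw [map_pow, map_pow, hα, map_pow, map_natCast]
    exact hzt
  have hβne : β ≠ 0 := root_ne_zero hq hm hβ0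
  have hqL : ((p ^ a : ℕ) : L) ≠ 0 := by exact_mod_cast hq
  have hβt : (β ^ 2) ^ t = ((p ^ a : ℕ) : L) ^ t := by
    have h1 := congrArg τ hαt
    rw [map_pow, map_pow, map_pow, map_natCast] at h1
    rcases hτ with h2 | h2
    · rwa [h2] at h1
    · rw [h2, div_pow, div_pow, div_eq_iff (pow_ne_zero _ (pow_ne_zero _ hβne))] at h1
      have h3 : ((p ^ a : ℕ) : L) ^ t * ((p ^ a : ℕ) : L) ^ t =
          ((p ^ a : ℕ) : L) ^ t * (β ^ 2) ^ t := by rw [← h1]; ring
      exact (mul_left_cancel₀ (pow_ne_zero _ hqL) h3).symm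
  have hwt : (w ^ 2) ^ t = ((p ^ a : ℕ) : ℂ) ^ t := by
    have h1 := congrArg jL hβt
    rwa [map_pow, map_pow, map_pow, map_natCast, hβ] at h1
  have hxt : (x ^ 2) ^ t = ((p ^ a : ℕ) : AlgebraicClosure ℚ_[p]) ^ t := by
    have h1 : ((⟨x, hxm⟩ : algebraicClosure ℚ (AlgebraicClosure ℚ_[p])) ^ 2) ^ t =
        ((p ^ a : ℕ) : algebraicClosure ℚ (AlgebraicClosure ℚ_[p])) ^ t := by
      apply (j : algebraicClosure ℚ (AlgebraicClosure ℚ_[p]) →+* ℂ).injective
      rw [map_pow, map_pow, map_pow, map_natCast]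
      exact hwt
    have h2 := congrArg (algebraMap (algebraicClosure ℚ (AlgebraicClosure ℚ_[p])) (AlgebraicClosure ℚ_[p])) h1
    rw [map_pow, map_pow, map_pow, map_natCast] at h2
    exact h2
  -- absolute values
  have h1 := congrArg (nv p) hxt
  rw [map_pow, map_pow, map_pow] at h1
  have h2 := (pow_left_inj₀ (pow_nonneg (apply_nonneg _ _) 2) (apply_nonneg _ _) ht.ne').1 h1
  have h3 : nv p ((p ^ a : ℕ) : AlgebraicClosure ℚ_[p]) = pw p a := by
    have h4 : ((p ^ a : ℕ) : AlgebraicClosure ℚ_[p]) = algebraMap ℚ_[p] (AlgebraicClosure ℚ_[p]) ((p : ℚ_[p]) ^ a) := by simp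
    rw [h4, nv_algebraMap, norm_pow, Padic.norm_p, pw, Real.rpow_neg (by positivity), inv_pow]
    congr 1
    push_cast
    exact (Real.rpow_natCast _ _).symm
  have h4 : nv p x = pw p (a * s j0) := hxn
  rw [h3, h4, ← pw_nsmul hp2] at h2
  have h5 := le_of_eq h2
  have h6 := ge_of_eq h2
  rw [pw_le_iff hp2] at h5 h6
  have ha' : (0 : ℚ) < a := by exact_mod_cast ha
  push_cast at h5 h6
  nlinarith

end Pool.Agent.Q64.N
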