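import Mathlib
import Pool.Agent.Q64.N.Dens
import Pool.Agent.Q64.N.Defs

/-!
# Almost all members of the Newton strata are good: the main theorem
-/

set_option autoImplicit false

universe u v w

namespace Pool.Agent.Q64.N

open Polynomial Pool.Agent.Q64.L Pool.Agent.Y156.L Pool.Agent.W521.Frob
  Pool.Agent.Q64.P

theorem stratum_eq {κ : Type} (g : κ → ℕ) (s : ∀ i, Fin (g i) → ℚ) (p : ℕ) [Fact p.Prime]
    (a : ℕ) : Stratum g s p a = Pool.Agent.W518.DN.Stratum g s p a := rfl

/-- **Almost all members of the stratum have every property which good families have.** -/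
theorem strata {κ : Type} [Fintype κ] [Nonempty κ] (p : ℕ) [Fact p.Prime] (g : κ → ℕ)
    (sl : ∀ i, Fin (g i) → ℚ) (hsl : ∀ i, IsNewton (sl i)) (hss : ∀ i, ∃ j, sl i j < 1 / 2)
    (r : ℕ) (hr : ∀ i, r < g i) (E : IntermediateField ℚ ℂ) [FiniteDimensional ℚ E]
    (Q : ℕ → (κ → ℤ[X]) → Prop)
    (hQ : ∀ (a : ℕ) (F : κ → ℤ[X]), 0 < a → 1 < p ^ a → Good (RootsRank E r) (p ^ a) F → Q a F)
    (N : ℕ) (ε : ℝ) (hε : 0 < ε) :
    ∃ a₀ : ℕ, ∀ a, a₀ ≤ a →
      (Stratum g sl p a).Finite ∧ N ≤ (Stratum g sl p a).ncard ∧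
      ({f ∈ Stratum g sl p a | ¬ Q a f}.ncard : ℝ) ≤ ε * ((Stratum g sl p a).ncard : ℝ) := by
  classical
  simp only [stratum_eq]
  have hsl' : ∀ i, Pool.Agent.W518.DN.IsNewton (sl i) := fun i =>
    ⟨(hsl i).mono, (hsl i).nonneg, (hsl i).le_half, (hsl i).integral⟩
  refine density g sl p (Pool.Agent.W484.TB.splitPrimes E)
    (infinite_of_dense (Pool.Agent.W484.TB.dense_splitPrimes E))
    (fun i => (Nat.zero_le r).trans_lt (hr i)) hsl' hss Q ?_ N ε hε
  intro a ha h hm hd hst hirr hpat
  have hq : 1 < p ^ a := Nat.one_lt_pow ha.ne' (Fact.out : p.Prime).one_lt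
  refine hQ a _ ha hq (good_family hq ⟨hm, hirr, hpat, ?_, ?_⟩)
  · intro i z hz t ht
    exact nss_of_slopes ha (hm i) (hirr i) (hst i).2.2 (hss i) z hz t ht
  · intro i
    rw [hd i]
    exact hr i

section

variable {I : Type} {q : ℕ} (hq : 1 < q) {f : I → ℤ[X]} {P : ℚ[X] → Prop} (hG : Good P q f)

include hq hG

theorem weightReduces' : WeightReduces P q f :=
  weightReduces_mono (rootsIn_of_good hG) (weightReduces hq (noRel_of_good hG))

theorem beilinsonReduces' : BeilinsonReduces P q f :=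
  beilinsonReduces_mono (rootsIn_of_good hG) (beilinsonReduces hq (noRel_of_good hG))

theorem pairingReduces' : PairingReduces P q f :=
  pairingReduces_mono (rootsIn_of_good hG) (pairingReduces hq (noRel_of_good hG))

theorem ratNumReduces' : RatNumReduces P q f :=
  ratNumReduces_mono (rootsIn_of_good hG) (ratNumReduces hq (noRel_of_good hG))

theorem perfectReduces' : PerfectReduces P q f :=
  perfectReduces_mono (rootsIn_of_good hG) (perfectReduces hq (noRel_of_good hG))

theorem parshinReduces' : ParshinReduces P q f :=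
  parshinReduces_mono (rootsIn_of_good hG) (parshinReduces hq (noRel_of_good hG))

theorem ncParshinReduces' : NCParshinReduces P q f :=
  ncParshinReduces_mono (rootsIn_of_good hG) (ncParshinReduces hq (noRel_of_good hG))

theorem ncNumReduces' : NCNumReduces P q f :=
  ncNumReduces_mono (rootsIn_of_good hG) (ncNumReduces hq (noRel_of_good hG))

theorem ncTateReduces' : NCTateReduces P q f :=
  ncTateReduces_mono (rootsIn_of_good hG) (ncTateReduces hq (noRel_of_good hG))

end

end Pool.Agent.Q64.N
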